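import Mathlib

/-!
# Degenerations of symplectic forms (MP_e1889a_ag): definitions

`K` is the function field of the affine variety `Spec R`; vector fields are derivations of `K`.
-/

set_option autoImplicit false

namespace Pool.Agent.Helper37.SCX

open Module Filter Topology

/-- A real valuation of `K`, trivial on `ℂ` (the value at `0` plays no role). -/
structure RVal (K : Type) [Field K] [Algebra ℂ K] where
  val : K → ℝ
  map_mul : ∀ x y, x ≠ 0 → y ≠ 0 → val (x * y) = val x + val y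
  map_add : ∀ x y, x ≠ 0 → y ≠ 0 → x + y ≠ 0 → min (val x) (val y) ≤ val (x + y)
  map_const : ∀ z : ℂ, z ≠ 0 → val (algebraMap ℂ K z) = 0

/-- Functions of two vector fields. -/
abbrev Form (K : Type) [Field K] [Algebra ℂ K] : Type :=
  Derivation ℂ K K → Derivation ℂ K K → K

variable {K : Type} [Field K] [Algebra ℂ K] {K₀ : Type} [Field K₀] [Algebra ℂ K₀]

/-- `v x ≥ c` (or `x = 0`) -/
def Ge (v : RVal K) (c : ℝ) (x : K) : Prop := x = 0 ∨ c ≤ v.val x

/-- `D` maps `R` to `R`. -/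
def Pres (R : Subalgebra ℂ K) (D : Derivation ℂ K K) : Prop := ∀ x ∈ R, D x ∈ R

/-- `ω` is a regular 2-form on `Spec R`: bilinear, alternating, and its values at derivations of `R` lie
in `R`. -/
structure IsReg (R : Subalgebra ℂ K) (ω : Form K) : Prop where
  add : ∀ A B C, ω (A + B) C = ω A C + ω B C
  smul : ∀ (f : K) A B, ω (f • A) B = f * ω A B
  skew : ∀ A B, ω B A = -ω A B
  reg : ∀ A B, Pres R A → Pres R B → ω A B ∈ R

/-- `ω` is moreover nowhere degenerate: `A ↦ ω A` maps `Der R` onto its dual. -/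
structure IsNondeg (R : Subalgebra ℂ K) (ω : Form K) : Prop extends IsReg R ω where
  inj : ∀ A, (∀ B, ω A B = 0) → A = 0
  perfect : ∀ A, (∀ B, Pres R B → ω A B ∈ R) → Pres R A

/-- `d ω = 0` -/
def Closed (ω : Form K) : Prop := ∀ A B C : Derivation ℂ K K,
  A (ω B C) - B (ω A C) + C (ω A B) - ω ⁅A, B⁆ C + ω ⁅A, C⁆ B - ω ⁅B, C⁆ A = 0

/-- The Lie derivative of `ω` along `ξ` is `ℓ ω`. -/
def HomForm (ξ : Derivation ℂ K K) (ℓ : ℝ) (ω : Form K) : Prop := ∀ A B : Derivation ℂ K K,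
  ξ (ω A B) - ω ⁅ξ, A⁆ B - ω A ⁅ξ, B⁆ = (ℓ : ℂ) • ω A B

/-- The square of `ωⁿ (D 0, …, D (2 n - 1)) / n!`. -/
def gram {n : ℕ} (ω : Form K) (D : Fin (2 * n) → Derivation ℂ K K) : K :=
  Matrix.det fun i j => ω (D i) (D j)

/-- `D` does not lower the valuation. -/
def LogDer (v : RVal K) (D : Derivation ℂ K K) : Prop := ∀ x, x ≠ 0 → Ge v (v.val x) (D x)

/-- `a` is the log discrepancy of `v` with respect to `ωⁿ`: the infimum of the values of
`ωⁿ (D 0, …, D (2 n - 1)) / n!`, where the `D i` do not lower `v`. -/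
def HasLogDisc (n : ℕ) (ω : Form K) (v : RVal K) (a : ℝ) : Prop :=
  IsGLB {r : ℝ | ∃ D : Fin (2 * n) → Derivation ℂ K K, (∀ i, LogDer v (D i)) ∧
    gram ω D ≠ 0 ∧ 2 * r = v.val (gram ω D)} a

/-- The elements `x` of `R` with `v x ≥ c` (they span this subspace). -/
def idl (R : Subalgebra ℂ K) (v : RVal K) (c : ℝ) : Submodule ℂ R :=
  Submodule.span ℂ {x | Ge v c x}

/-- `V` is the volume of `v` on `Spec R` of dimension `2 n`. -/
def HasVol (n : ℕ) (R : Subalgebra ℂ K) (v : RVal K) (V : ℝ) : Prop :=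
  Tendsto (fun m : ℕ => ((2 * n).factorial : ℝ) * (finrank ℂ (R ⧸ idl R v m) : ℝ) /
    (m : ℝ) ^ (2 * n)) atTop (𝓝 V)

/-- `K` is the fraction field of `R`. -/
def IsFrac (R : Subalgebra ℂ K) : Prop := ∀ x : K, ∃ a ∈ R, ∃ b ∈ R, b ≠ 0 ∧ x = a / b

/-- The span of the homogeneous elements of `R` whose degree satisfies `P`. -/
def Deg (R : Subalgebra ℂ K) (ξ : Derivation ℂ K K) (P : ℝ → Prop) : Submodule ℂ K :=
  Submodule.span ℂ {y | y ∈ R ∧ ∃ c : ℝ, P c ∧ ξ y = (c : ℂ) • y}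

/-- `Spec R` with the Reeb field `ξ` is a cone. -/
structure IsCone (R : Subalgebra ℂ K) (ξ : Derivation ℂ K K) : Prop where
  frac : IsFrac R
  fg : R.FG
  span : ∀ x ∈ R, x ∈ Deg R ξ (fun c => 0 ≤ c)
  const : ∀ x ∈ R, ξ x = 0 → ∃ z : ℂ, x = algebraMap ℂ K z

/-- `v = wt ξ`: `v x ≥ c` if and only if all homogeneous components of `x` have degree at least `c`. -/
def IsWt (R : Subalgebra ℂ K) (ξ : Derivation ℂ K K) (v : RVal K) : Prop :=
  ∀ x ∈ R, x ≠ 0 → ∀ c : ℝ, (c ≤ v.val x ↔ x ∈ Deg R ξ (fun b => c ≤ b))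

/-- `v` has the log discrepancy `a` and the volume `V`, and among the real valuations centred at the
vertex it is, up to scaling, the only minimizer of the normalized volume; all log discrepancies are
positive. -/
def UniqueMin (n : ℕ) (R : Subalgebra ℂ K) (η : Form K) (v : RVal K) (a V : ℝ) : Prop :=
  HasLogDisc n η v a ∧ HasVol n R v V ∧ ∀ (w : RVal K) (a' V' : ℝ),
    (∀ x ∈ R, x ≠ 0 → 0 < v.val x → 0 < w.val x) → HasLogDisc n η w a' → HasVol n R w V' →
      0 < a' ∧ ((¬ ∃ c : ℝ, ∀ x, x ≠ 0 → w.val x = c * v.val x) →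
        a ^ (2 * n) * V < a' ^ (2 * n) * V')

/-- Logarithmic coordinates: `D i = g i ∂ / ∂ g i`. -/
structure IsFrame {d : ℕ} (D : Fin d → Derivation ℂ K K) (g : Fin d → K) : Prop where
  ne : ∀ i, g i ≠ 0
  apply : ∀ i j, D i (g j) = if i = j then g j else 0
  complete : ∀ E : Derivation ℂ K K, E = ∑ i, (E (g i) / g i) • D i

/-- `R₀` is the graded ring `gr_v R`; the elements `y` with `ξ y = c y` are those of degree `c`. For
`v x ≥ c` the element `sym c x` is the class of `x` in degree `c`, also for `x` in `K`. -/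
structure IsGr (R : Subalgebra ℂ K) (v : RVal K) (R₀ : Subalgebra ℂ K₀)
    (ξ : Derivation ℂ K₀ K₀) (sym : ℝ → K → K₀) : Prop where
  add : ∀ c x y, Ge v c x → Ge v c y → sym c (x + y) = sym c x + sym c y
  mul : ∀ b c x y, Ge v b x → Ge v c y → sym (b + c) (x * y) = sym b x * sym c y
  const : ∀ z : ℂ, sym 0 (algebraMap ℂ K z) = algebraMap ℂ K₀ z
  zero_iff : ∀ c x, Ge v c x → (sym c x = 0 ↔ x = 0 ∨ c < v.val x)
  mem : ∀ c x, x ∈ R → Ge v c x → sym c x ∈ R₀ ∧ ξ (sym c x) = (c : ℂ) • sym c x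
  surj : ∀ c : ℝ, ∀ y ∈ R₀, ξ y = (c : ℂ) • y → ∃ x ∈ R, Ge v c x ∧ sym c x = y

/-- `D` does not lower `v` and induces `D₀` on the graded ring. -/
def Induces (v : RVal K) (sym : ℝ → K → K₀) (D : Derivation ℂ K K)
    (D₀ : Derivation ℂ K₀ K₀) : Prop :=
  LogDer v D ∧ ∀ c x, Ge v c x → D₀ (sym c x) = sym c (D x)

/-- `v` is quasi-monomial: some logarithmic coordinates of `K` induce such coordinates of `K₀`. -/
def QuasiMonomial (d : ℕ) (v : RVal K) (sym : ℝ → K → K₀) : Prop :=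
  ∃ (g : Fin d → K) (D : Fin d → Derivation ℂ K K) (D₀ : Fin d → Derivation ℂ K₀ K₀),
    IsFrame D g ∧ IsFrame D₀ (fun i => sym (v.val (g i)) (g i)) ∧ ∀ i, Induces v sym (D i) (D₀ i)

/-- `ω₀` is the leading term, of weight `k`, of the 2-form `ω`. -/
def IsDegen (v : RVal K) (sym : ℝ → K → K₀) (ω : Form K) (k : ℝ) (ω₀ : Form K₀) : Prop :=
  (∃ A B, ω₀ A B ≠ 0) ∧ ∀ A B A₀ B₀, Induces v sym A A₀ → Induces v sym B B₀ →
    Ge v k (ω A B) ∧ ω₀ A₀ B₀ = sym k (ω A B)

/-- `R` is integrally closed in `K`. -/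
def Normal (R : Subalgebra ℂ K) : Prop := ∀ x : K, IsIntegral R x → x ∈ R

/-- `R` (of dimension `d`) is Cohen-Macaulay: free, with a finite basis `e`, over every polynomial
subalgebra `ℂ[z 0, …, z (d - 1)]` over which it is integral. -/
def CM (d : ℕ) (R : Subalgebra ℂ K) : Prop := ∀ z : Fin d → K, (∀ i, z i ∈ R) →
  AlgebraicIndependent ℂ z → (∀ x ∈ R, IsIntegral (Algebra.adjoin ℂ (Set.range z)) x) →
    ∃ (r : ℕ) (e : Fin r → K), (∀ l, e l ∈ R) ∧
      ∀ x ∈ R, ∃! p : Fin r → MvPolynomial (Fin d) ℂ, x = ∑ l, MvPolynomial.aeval z (p l) * e l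

/-- `t` is the trace of the endomorphism of `M / P` which maps the class of `x` to that of `y` whenever
`Y x y`. -/
def IsTr {M : Type} [AddCommGroup M] [Module ℂ M] (P : Submodule ℂ M) (Y : M → M → Prop) (t : ℂ) :
    Prop :=
  ∃ T : (M ⧸ P) →ₗ[ℂ] (M ⧸ P), (∀ x y, Y x y → T (P.mkQ x) = P.mkQ y) ∧
    t = LinearMap.trace ℂ (M ⧸ P) T

/-- The Futaki invariant of the cone `Spec R` vanishes (`v = wt ξ` has the log discrepancy `a`): for every
derivation `Y` of `R` which commutes with `ξ` and whose divergence with respect to `ηⁿ`, computed in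
logarithmic coordinates `g i`, is a constant `δ`, the quotient of the traces of `Y` and `ξ` on
`R / {v ≥ m}` tends to `δ / a`. -/
def Fut (n : ℕ) (R : Subalgebra ℂ K) (ξ : Derivation ℂ K K) (η : Form K) (v : RVal K) (a : ℝ) :
    Prop :=
  ∀ Y : Derivation ℂ K K, Pres R Y → ⁅ξ, Y⁆ = 0 →
    ∀ (D : Fin (2 * n) → Derivation ℂ K K) (g : Fin (2 * n) → K), IsFrame D g → ∀ δ : ℂ,
      ∑ i, D i (Y (g i) / g i) + Y (gram η D) / (2 * gram η D) = algebraMap ℂ K δ →
        ∀ s t : ℕ → ℂ, (∀ m : ℕ, IsTr (idl R v m) (fun x y => (y : K) = Y x) (s m)) →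
          (∀ m : ℕ, IsTr (idl R v m) (fun x y => (y : K) = ξ x) (t m)) →
            Tendsto (fun m => s m / t m) atTop (𝓝 (δ / a))

end Pool.Agent.Helper37.SCX
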