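import Pool.Agent.Helper37.SCX.Defs
import Pool.Agent.Helper37.TF.Main

/-!
# The theorem on symplectic cones for the short definitions
-/

set_option autoImplicit false

namespace Pool.Agent.Helper37.SCX

open Module Filter Topology

variable {K : Type} [Field K] [Algebra ℂ K] {K₀ : Type} [Field K₀] [Algebra ℂ K₀]

/-- the same valuation -/
def cv (v : RVal K) : SD.RVal K := ⟨v.val, v.map_mul, v.map_add, v.map_const⟩

/-- the same valuation -/
def vc (v : SD.RVal K) : RVal K := ⟨v.val, v.map_mul, v.map_add, v.map_const⟩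

theorem IsReg.add_right {R : Subalgebra ℂ K} {ω : Form K} (h : IsReg R ω)
    (A B C : Derivation ℂ K K) : ω A (B + C) = ω A B + ω A C := by
  have h1 := h.skew (B + C) A
  have h2 := h.skew B A
  have h3 := h.skew C A
  rw [h.add] at h1
  rw [h1, h2, h3]
  ring

theorem IsReg.smul_right {R : Subalgebra ℂ K} {ω : Form K} (h : IsReg R ω) (f : K)
    (A B : Derivation ℂ K K) : ω A (f • B) = f * ω A B := by
  have h1 := h.skew (f • B) A
  have h2 := h.skew B A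
  rw [h.smul] at h1
  rw [h1, h2]
  ring

/-- the 2-form as a bilinear map -/
noncomputable def toForm {R : Subalgebra ℂ K} {ω : Form K} (h : IsReg R ω) : SD.Form K :=
  LinearMap.mk₂ K ω h.add h.smul h.add_right h.smul_right

theorem reg_toForm {R : Subalgebra ℂ K} {ω : Form K} (h : IsReg R ω) :
    SD.IsReg R (toForm h) := by
  refine ⟨fun D => ?_, h.reg⟩
  show ω D D = 0
  have h1 := h.skew D D
  haveI : CharZero K := charZero_of_injective_algebraMap (algebraMap ℂ K).injective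
  have h2 : (2 : K) * ω D D = 0 := by linear_combination h1
  exact (mul_eq_zero.1 h2).resolve_left two_ne_zero

theorem nondeg_toForm {R : Subalgebra ℂ K} {ω : Form K} (h : IsNondeg R ω) :
    SD.IsNondeg R (toForm h.toIsReg) :=
  ⟨reg_toForm h.toIsReg, h.inj, h.perfect⟩

theorem idl_eq (R : Subalgebra ℂ K) (v : RVal K) (c : ℝ) : idl R v c = SD.idl R (cv v) c :=
  Submodule.span_eq (SD.idl R (cv v) c)

theorem hasVol_iff {n : ℕ} {R : Subalgebra ℂ K} {v : RVal K} {V : ℝ} :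
    HasVol n R v V ↔ SD.HasVol n R (cv v) V := by
  have h1 : (fun m : ℕ => ((2 * n).factorial : ℝ) * (finrank ℂ (R ⧸ idl R v m) : ℝ) /
      (m : ℝ) ^ (2 * n)) = fun m : ℕ => ((2 * n).factorial : ℝ) *
        (finrank ℂ (R ⧸ SD.idl R (cv v) m) : ℝ) / (m : ℝ) ^ (2 * n) := by
    funext m
    rw [idl_eq]
  unfold HasVol SD.HasVol
  rw [h1]

theorem isTr_of {R : Subalgebra ℂ K} {v : RVal K} {m : ℝ} {Y : Derivation ℂ K K} {t : ℂ}
    (h : SD.IsTr R (cv v) m Y t) : IsTr (idl R v m) (fun x y => (y : K) = Y x) t := by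
  rw [idl_eq]
  obtain ⟨T, h1, h2⟩ := h
  exact ⟨T, h1, h2⟩

theorem frame_of {d : ℕ} {D : Fin d → Derivation ℂ K K} {g : Fin d → K} (h : IsFrame D g) :
    SD.IsFrame D g := ⟨h.ne, h.apply, h.complete⟩

theorem main {n : ℕ} {R : Subalgebra ℂ K} {v : RVal K} {R₀ : Subalgebra ℂ K₀}
    {ξ : Derivation ℂ K₀ K₀} {v₀ : RVal K₀} {sym : ℝ → K → K₀}
    (hR : IsFrac R) (hgr : IsGr R v R₀ ξ sym) (hq : QuasiMonomial (2 * n) v sym)
    (hcone : IsCone R₀ ξ) (hv₀ : IsWt R₀ ξ v₀) (hnorm : Normal R₀) (hCM : CM (2 * n) R₀)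
    {η : Form K₀} (hη : IsNondeg R₀ η) (hsymp : Closed η ∨ ∃ ℓ : ℝ, HomForm ξ ℓ η)
    {a V : ℝ} (hmin : UniqueMin n R₀ η v₀ a V) (hfut : Fut n R₀ ξ η v₀ a)
    {ω : Form K} (hω : IsNondeg R ω) (hclosed : Closed ω) (hdisc : HasLogDisc n ω v a)
    {ω₀ : Form K₀} {k : ℝ} (hdeg : IsDegen v sym ω k ω₀) (hreg : IsReg R₀ ω₀) (hk : k ≠ 0) :
    k = a / n ∧ IsNondeg R₀ ω₀ ∧ Closed ω₀ ∧ HomForm ξ k ω₀ := by
  have c1 : SD.IsCone R₀ ξ := ⟨hcone.frac, hcone.fg, hcone.span, hcone.const⟩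
  have c2 : SD.IsGr R (cv v) R₀ ξ sym :=
    ⟨hgr.add, hgr.mul, hgr.const, hgr.zero_iff, hgr.mem, hgr.surj⟩
  have c3 : SD.QuasiMonomial (2 * n) (cv v) sym := by
    obtain ⟨g, D, D₀, h1, h2, h3⟩ := hq
    exact ⟨g, D, D₀, frame_of h1, frame_of h2, h3⟩
  have c4 : SD.UniqueMin n R₀ (toForm hη.toIsReg) (cv v₀) a V :=
    ⟨hmin.1, hasVol_iff.1 hmin.2.1, fun w a' V' h1 h2 h3 =>
      hmin.2.2 (vc w) a' V' h1 h2 ((hasVol_iff (v := vc w)).2 h3)⟩
  have c5 : SD.Fut n R₀ ξ (toForm hη.toIsReg) (cv v₀) a := by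
    intro Y hY h0 D g hD δ hδ s t hs ht
    exact hfut Y hY h0 D g ⟨hD.ne, hD.apply, hD.complete⟩ δ hδ s t (fun m => isTr_of (hs m))
      (fun m => isTr_of (ht m))
  have c6 : SD.IsDegen (cv v) sym (toForm hω.toIsReg) k (toForm hreg) := by
    refine ⟨fun D E D₀ E₀ h1 h2 => (hdeg.2 D E D₀ E₀ h1 h2).1,
      fun D E D₀ E₀ h1 h2 => (hdeg.2 D E D₀ E₀ h1 h2).2, fun h0 => ?_⟩
    obtain ⟨A, B, hAB⟩ := hdeg.1
    apply hAB
    have h1 : toForm hreg A B = 0 := by rw [h0]; rfl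
    exact h1
  obtain ⟨e1, e2, e3, e4⟩ := SD.degen_symplectic' (v₀ := cv v₀) c1 hR c2 hv₀ c3 hnorm hCM
    (nondeg_toForm hη) hsymp c4 c5 (nondeg_toForm hω) hclosed hdisc c6 (reg_toForm hreg) hk
  exact ⟨e1, ⟨hreg, e2.inj, e2.perfect⟩, e3, e4⟩

end Pool.Agent.Helper37.SCX
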